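import Pool.Agent.W472.AC.Digits

/-!
# A small linear form from a small relation
-/

set_option autoImplicit false

namespace Pool.Agent.Y39.DJ

open Finset Polynomial Module Pool.Agent.W472.AC

/-- a relation of small degree between the polynomials `G j` gives a small integer linear form in
the numbers `y j` -/
theorem core (m k δ L B κ b : ℕ) (hb : 2 ≤ b) (hB : 1 ≤ B) (y : Fin (m + 1) → ℝ) (E : ℝ)
    (G : Fin (m + 1) → ℤ[X])
    (hG : ∀ j i, |(G j).coeff i| ≤ B) (hyG : ∀ j, |y j - ev (1 / b) (G j)| ≤ E * (1 / b) ^ L)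
    (h : Fin (m + 1) → ℚ[X]) (hne : h ≠ 0) (hk : ∀ j, (h j).natDegree ≤ k)
    (hrel : X ^ (L + 1) ∣ ∑ j, h j * (G j).map (Int.castRingHom ℚ))
    (hκ : (m + 1) * (k + δ + 1) ≤ κ * (δ + 1)) (H : ℕ)
    (hH : H = ((m + 1) * (k + δ + 1) * B) ^ κ) :
    ∃ a : Fin (m + 1) → ℤ, a ≠ 0 ∧ (∀ j, |(a j : ℝ)| ≤ 2 * H * (b : ℝ) ^ (k + δ)) ∧
      |∑ j, (a j : ℝ) * y j| ≤
      (b : ℝ) ^ (k + δ) * ((1 / b) ^ L * (2 * (m + 1) * H * ((k + δ + 1) * B + E))) := by
  obtain ⟨t, ht0, htd, htH, htX⟩ := small_rel m k δ (L + 1) B κ hB G hG h hne hk hrel hκ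
  rw [← hH] at htH
  obtain ⟨s, hsd, hsH, hsX, j0, hj0⟩ := nonvanish m (L + 1) b H hb G (k + δ) t ht0 htd htH htX
  set K := k + δ with hK
  have hbR : (2 : ℝ) ≤ b := by exact_mod_cast hb
  have hb0 : (0 : ℝ) < b := by linarith
  set z : ℝ := 1 / b with hz
  have hz0 : 0 < z := by positivity
  have hz1 : z ≤ 1 / 2 := by
    rw [hz]; exact one_div_le_one_div_of_le (by norm_num) hbR
  have hH1 : 1 ≤ H := by
    rw [hH]
    exact Nat.one_le_pow _ _ (by positivity)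
  have hHR : (1 : ℝ) ≤ H := by exact_mod_cast hH1
  set a : Fin (m + 1) → ℤ := fun j => ∑ i ∈ range (K + 1), (s j).coeff i * (b : ℤ) ^ (K - i) with ha
  have ha0 : a ≠ 0 := fun h0 => hj0 (congrFun h0 j0)
  have haev : ∀ j, (a j : ℝ) = (b : ℝ) ^ K * ev z (s j) := by
    intro j
    rw [ev_eq z (s j) (K + 1) (by have := hsd j; omega), ha, Finset.mul_sum]
    push_cast
    refine Finset.sum_congr rfl fun i hi => ?_
    rw [mem_range] at hi
    have e : (b : ℝ) ^ K = (b : ℝ) ^ (K - i) * (b : ℝ) ^ i := by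
      rw [← pow_add]; congr 1; omega
    rw [e, hz, div_pow, one_pow]
    field_simp
  have hsev : ∀ j, |ev z (s j)| ≤ 2 * H := by
    intro j
    refine ev_abs z hz0.le hz1 (s j) H (by positivity) fun i => ?_
    exact_mod_cast hsH j i
  have hbK : (1 : ℝ) ≤ (b : ℝ) ^ K := one_le_pow₀ (by linarith)
  have haH : ∀ j, |(a j : ℝ)| ≤ 2 * H * (b : ℝ) ^ K := by
    intro j
    rw [haev, abs_mul, abs_of_pos (by positivity : (0 : ℝ) < (b : ℝ) ^ K), mul_comm]
    exact mul_le_mul_of_nonneg_right (hsev j) (by positivity)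
  refine ⟨a, ha0, haH, ?_⟩
  have e1 : ∑ j, (a j : ℝ) * y j =
      (b : ℝ) ^ K * (ev z (∑ j, s j * G j) + ∑ j, ev z (s j) * (y j - ev z (G j))) := by
    rw [ev_sum]
    simp only [ev_mul]
    rw [← Finset.sum_add_distrib, Finset.mul_sum]
    refine Finset.sum_congr rfl fun j _ => ?_
    rw [haev]
    ring
  have e2 : |ev z (∑ j, s j * G j)| ≤ 2 * ((m + 1) * (K + 1) * H * B) * z ^ (L + 1) := by
    refine ev_abs_dvd z hz0.le hz1 _ _ (by positivity) (fun i => ?_) (L + 1) hsX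
    have := coeff_sum_bound m K H B s G hsd hsH hG i
    exact_mod_cast this
  have e3 : |∑ j, ev z (s j) * (y j - ev z (G j))| ≤ (m + 1) * (2 * H * (E * z ^ L)) := by
    calc |∑ j, ev z (s j) * (y j - ev z (G j))|
        ≤ ∑ j, |ev z (s j) * (y j - ev z (G j))| := Finset.abs_sum_le_sum_abs _ _
      _ ≤ ∑ _j : Fin (m + 1), 2 * H * (E * z ^ L) := by
          refine Finset.sum_le_sum fun j _ => ?_
          rw [abs_mul]
          exact mul_le_mul (hsev j) (hyG j) (abs_nonneg _) (by positivity)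
      _ = (m + 1) * (2 * H * (E * z ^ L)) := by
          rw [Finset.sum_const, Finset.card_univ, Fintype.card_fin, nsmul_eq_mul]
          push_cast
          ring
  have e6 : ((K : ℕ) : ℝ) = (k : ℝ) + δ := by rw [hK]; push_cast; ring
  rw [← e6, e1, abs_mul, abs_of_pos (by positivity : (0 : ℝ) < (b : ℝ) ^ K)]
  refine mul_le_mul_of_nonneg_left ?_ (by positivity)
  refine (abs_add_le _ _).trans ((add_le_add e2 e3).trans ?_)
  have e4 : z ^ (L + 1) ≤ z ^ L := by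
    rw [pow_succ]
    have : 0 ≤ z ^ L := by positivity
    nlinarith
  have e5 : 2 * ((m + 1) * (K + 1) * H * B) * z ^ (L + 1) ≤
      2 * (((m : ℝ) + 1) * (K + 1) * H * B) * z ^ L :=
    mul_le_mul_of_nonneg_left e4 (by positivity)
  calc 2 * ((m + 1) * (K + 1) * H * B) * z ^ (L + 1) + (m + 1) * (2 * H * (E * z ^ L))
      ≤ 2 * (((m : ℝ) + 1) * (K + 1) * H * B) * z ^ L + (m + 1) * (2 * H * (E * z ^ L)) := by
        linarith
    _ = z ^ L * (2 * (m + 1) * H * ((K + 1) * B + E)) := by ring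

/-- the coefficients of `∑ a_j (X - ⌊x⌋)^j` -/
theorem shift_poly (x : ℝ) (D : ℕ) :
    ∃ S : ℝ, 1 ≤ S ∧ ∀ a : Fin (D + 1) → ℤ, a ≠ 0 → ∀ H : ℝ, 0 ≤ H → (∀ j, |(a j : ℝ)| ≤ H) →
      ∃ Q : ℤ[X], Q ≠ 0 ∧ Q.natDegree ≤ D ∧ (∀ i, |(Q.coeff i : ℝ)| ≤ H * S) ∧
        aeval x Q = ∑ j : Fin (D + 1), (a j : ℝ) * Int.fract x ^ (j : ℕ) := by
  set Q : ℤ[X] := X - C ⌊x⌋ with hQ
  set S : ℝ := 1 + ∑ j ∈ range (D + 1), ∑ i ∈ range (D + 1), |(((Q ^ j).coeff i : ℤ) : ℝ)| with hS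
  have hS1 : 1 ≤ S := by
    rw [hS]
    have : 0 ≤ ∑ j ∈ range (D + 1), ∑ i ∈ range (D + 1), |(((Q ^ j).coeff i : ℤ) : ℝ)| :=
      Finset.sum_nonneg fun j _ => Finset.sum_nonneg fun i _ => abs_nonneg _
    linarith
  refine ⟨S, hS1, ?_⟩
  intro a ha H hH haH
  set P0 : ℤ[X] := pol a with hP0
  have hP00 : P0 ≠ 0 := fun h => ha (pol_eq_zero a h)
  have hP0d : P0.natDegree ≤ D := pol_natDegree a
  have hQd : Q.natDegree = 1 := by rw [hQ]; exact natDegree_X_sub_C _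
  have hPd : (P0.comp Q).natDegree ≤ D := by
    rw [natDegree_comp, hQd, mul_one]; exact hP0d
  have hPne : P0.comp Q ≠ 0 := by
    intro h
    rcases comp_eq_zero_iff.1 h with h1 | ⟨_, h2⟩
    · exact hP00 h1
    · have : Q.natDegree = 0 := by rw [h2]; exact natDegree_C _
      omega
  have hPe : P0.comp Q = ∑ j : Fin (D + 1), C (a j) * Q ^ (j : ℕ) := by
    rw [hP0]
    unfold pol
    rw [Polynomial.sum_comp]
    simp
  refine ⟨P0.comp Q, hPne, hPd, ?_, ?_⟩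
  · intro i
    by_cases hi : i ≤ D
    · rw [hPe, finsetSum_coeff]
      push_cast
      calc |∑ j : Fin (D + 1), (((C (a j) * Q ^ (j : ℕ)).coeff i : ℤ) : ℝ)|
          ≤ ∑ j : Fin (D + 1), |(((C (a j) * Q ^ (j : ℕ)).coeff i : ℤ) : ℝ)| :=
            Finset.abs_sum_le_sum_abs _ _
        _ ≤ ∑ j : Fin (D + 1), H * |(((Q ^ (j : ℕ)).coeff i : ℤ) : ℝ)| := by
            refine Finset.sum_le_sum fun j _ => ?_
            rw [coeff_C_mul]
            push_cast
            rw [abs_mul]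
            exact mul_le_mul_of_nonneg_right (haH j) (abs_nonneg _)
        _ = H * ∑ j ∈ range (D + 1), |(((Q ^ j).coeff i : ℤ) : ℝ)| := by
            rw [← Finset.mul_sum, Finset.sum_range]
        _ ≤ H * S := by
            refine mul_le_mul_of_nonneg_left ?_ hH
            rw [hS]
            have : ∑ j ∈ range (D + 1), |(((Q ^ j).coeff i : ℤ) : ℝ)| ≤
                ∑ j ∈ range (D + 1), ∑ i ∈ range (D + 1), |(((Q ^ j).coeff i : ℤ) : ℝ)| := by
              refine Finset.sum_le_sum fun j _ => ?_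
              exact Finset.single_le_sum (f := fun i => |(((Q ^ j).coeff i : ℤ) : ℝ)|)
                (fun _ _ => abs_nonneg _) (mem_range.2 (by omega))
            linarith
    · rw [coeff_eq_zero_of_natDegree_lt (by omega)]
      simp only [Int.cast_zero, abs_zero]
      exact mul_nonneg hH (by linarith)
  · rw [hPe, map_sum]
    refine Finset.sum_congr rfl fun j _ => ?_
    rw [map_mul, map_pow, hQ, map_sub, aeval_X, aeval_C, aeval_C]
    rfl

/-- there is a nonzero polynomial `P` in `Y` of degree `≤ r` whose coefficients are polynomials in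
`X` over `ℚ` of degree `≤ k` with `P(X, a_1 X + ⋯ + a_L X^L)` divisible by `X^(L+1)` -/
def AlgRelation (b : ℕ) (x : ℝ) (r L k : ℕ) : Prop :=
  ∃ P : ℚ[X][X], P ≠ 0 ∧ P.natDegree ≤ r ∧ (∀ j, (P.coeff j).natDegree ≤ k) ∧
    X ^ (L + 1) ∣ P.eval (digitPoly b x L)

/-- the linear form given by an algebraic relation -/
theorem of_relation (x : ℝ) (D b L k : ℕ) (hb : 2 ≤ b) (hkL : k ≤ L)
    (h : AlgRelation b x D L k) :
    ∃ a : Fin (D + 1) → ℤ, a ≠ 0 ∧
      (∀ j, |(a j : ℝ)| ≤ 2 * ((2 * D + 2) * (b * ((L : ℝ) + 1)) ^ (D + 1)) ^ (2 * (D + 1)) *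
        (b : ℝ) ^ (2 * k)) ∧
      |∑ j : Fin (D + 1), (a j : ℝ) * Int.fract x ^ (j : ℕ)| ≤
      (b : ℝ) ^ (2 * k) * ((1 / b) ^ L * (2 * (D + 1) *
        ((2 * D + 2) * (b * ((L : ℝ) + 1)) ^ (D + 1)) ^ (2 * (D + 1)) *
        (2 * (b * ((L : ℝ) + 1)) ^ (D + 1)))) := by
  obtain ⟨P, hP0, hPr, hPk, hrel⟩ := h
  have hb1 : 1 ≤ b := by omega
  have hbL : 1 ≤ b * (L + 1) := Nat.mul_pos (by omega) (by omega)
  obtain ⟨B, hB⟩ : ∃ B : ℕ, B = (b * (L + 1)) ^ D := ⟨_, rfl⟩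
  have hB1 : 1 ≤ B := by rw [hB]; exact Nat.one_le_pow _ _ hbL
  have hBR : (B : ℝ) = (b * ((L : ℝ) + 1)) ^ D := by rw [hB]; push_cast; ring
  have hb0 : (0 : ℝ) < b := by exact_mod_cast hb1
  obtain ⟨H, hH⟩ : ∃ H : ℕ, H = ((D + 1) * (k + k + 1) * B) ^ (2 * (D + 1)) := ⟨_, rfl⟩
  obtain ⟨a, ha0, haH, hav⟩ := core D k k L B (2 * (D + 1)) b hb hB1
    (fun j => Int.fract x ^ (j : ℕ)) B
    (fun j => (DZ b x L) ^ (j : ℕ))
    (fun j i => by
      rw [hB]
      exact DZ_pow_coeff x b hb1 L D j (by omega) i)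
    (fun j => by
      have hev : ev (1 / (b : ℝ)) ((DZ b x L) ^ (j : ℕ)) = (ev (1 / (b : ℝ)) (DZ b x L)) ^ (j : ℕ) := by
        unfold ev; rw [Polynomial.map_pow, eval_pow]
      rw [hev]
      obtain ⟨h2, h3⟩ := ev_DZ_close x b hb1 L
      have h4 : 0 ≤ ev (1 / (b : ℝ)) (DZ b x L) := by
        rw [ev_eq _ _ _ (Nat.lt_succ_self _)]
        refine Finset.sum_nonneg fun i _ => mul_nonneg ?_ (by positivity)
        exact_mod_cast DZ_coeff_nonneg x b hb1 L i
      have h5 := Int.fract_nonneg x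
      have h6 := (Int.fract_lt_one x).le
      have hz : (0 : ℝ) ≤ (1 / (b : ℝ)) ^ L := by positivity
      refine (pow_sub_pow_le _ _ h5 h6 h4 (by linarith) j).trans ?_
      rw [abs_of_nonneg h2]
      have h7 : ((j : ℕ) : ℝ) ≤ (B : ℝ) := by
        have : (j : ℕ) ≤ (b * (L + 1)) ^ D := by
          have e1 : (j : ℕ) ≤ D := by omega
          have e2 : D < 2 ^ D := Nat.lt_two_pow_self
          have e3 : 2 ^ D ≤ (b * (L + 1)) ^ D := Nat.pow_le_pow_left (by nlinarith) D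
          omega
        rw [← hB] at this
        exact_mod_cast this
      exact mul_le_mul h7 h3 h2 (by positivity))
    (fun j => P.coeff j) (by
      intro h0
      apply hP0
      ext1 j
      by_cases hj : j < D + 1
      · have := congrFun h0 ⟨j, hj⟩
        simpa using this
      · rw [coeff_eq_zero_of_natDegree_lt (by omega), coeff_zero])
    (fun j => hPk j) (by
      have e : ∑ j : Fin (D + 1), P.coeff j * ((DZ b x L) ^ (j : ℕ)).map (Int.castRingHom ℚ) =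
          P.eval (digitPoly b x L) := by
        rw [eval_eq_sum_range' (show P.natDegree < D + 1 by omega), Finset.sum_range, digitPoly_eq]
        refine Finset.sum_congr rfl fun j _ => ?_
        rw [Polynomial.map_pow]
      rw [e]; exact hrel)
    (by nlinarith) H hH
  have hkR : (k : ℝ) ≤ L := by exact_mod_cast hkL
  have hL0 : (0 : ℝ) ≤ L := Nat.cast_nonneg _
  have hb2 : (2 : ℝ) ≤ b := by exact_mod_cast hb
  have hB0 : (0 : ℝ) ≤ B := Nat.cast_nonneg _
  have hkB : ((k : ℝ) + k + 1) * B ≤ 2 * (b * ((L : ℝ) + 1)) ^ (D + 1) := by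
    rw [pow_succ, ← hBR]
    have e1 : (k : ℝ) + k + 1 ≤ 2 * (b * ((L : ℝ) + 1)) := by nlinarith
    calc ((k : ℝ) + k + 1) * B ≤ 2 * (b * ((L : ℝ) + 1)) * B := mul_le_mul_of_nonneg_right e1 hB0
      _ = 2 * (B * (b * ((L : ℝ) + 1))) := by ring
  have hHle : (H : ℝ) ≤ ((2 * D + 2) * (b * ((L : ℝ) + 1)) ^ (D + 1)) ^ (2 * (D + 1)) := by
    rw [hH]
    push_cast
    refine pow_le_pow_left₀ (by positivity) ?_ _
    calc ((D : ℝ) + 1) * (k + k + 1) * B = (D + 1) * ((k + k + 1) * B) := by ring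
      _ ≤ (D + 1) * (2 * (b * ((L : ℝ) + 1)) ^ (D + 1)) :=
          mul_le_mul_of_nonneg_left hkB (by positivity)
      _ = (2 * D + 2) * (b * ((L : ℝ) + 1)) ^ (D + 1) := by ring
  have hkB2 : ((k : ℝ) + k + 1) * B + B ≤ 2 * (b * ((L : ℝ) + 1)) ^ (D + 1) := by
    rw [pow_succ, ← hBR]
    have e1 : (k : ℝ) + k + 1 + 1 ≤ 2 * (b * ((L : ℝ) + 1)) := by nlinarith
    calc ((k : ℝ) + k + 1) * B + B = ((k : ℝ) + k + 1 + 1) * B := by ring
      _ ≤ 2 * (b * ((L : ℝ) + 1)) * B := mul_le_mul_of_nonneg_right e1 hB0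
      _ = 2 * (B * (b * ((L : ℝ) + 1))) := by ring
  refine ⟨a, ha0, fun j => ?_, ?_⟩
  · refine (haH j).trans ?_
    rw [← two_mul]
    refine mul_le_mul_of_nonneg_right ?_ (by positivity)
    exact mul_le_mul_of_nonneg_left hHle (by norm_num)
  · refine hav.trans ?_
    rw [← two_mul k]
    refine mul_le_mul_of_nonneg_left ?_ (by positivity)
    refine mul_le_mul_of_nonneg_left ?_ (by positivity)
    refine mul_le_mul ?_ hkB2 (by positivity) (by positivity)
    exact mul_le_mul_of_nonneg_left hHle (by positivity)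

end Pool.Agent.Y39.DJ
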