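import Pool.Agent.Y39.DJ.Core
import Pool.Agent.Y39.DI.Few

/-!
# Algebraic relations of small degree between the digits: all bases at once
-/

set_option autoImplicit false

namespace Pool.Agent.Y39.DJ

open Finset Polynomial
open Pool.Agent.W472.AC (digitPoly digit)
open Pool.Agent.Y928.QN Pool.Agent.Y39.DH Pool.Agent.Y39.DI

lemma AlgRelation.mono {b : ℕ} {x : ℝ} {D L L' k : ℕ} (hL : L' ≤ L) (h : AlgRelation b x D L k) :
    AlgRelation b x D L' k := by
  obtain ⟨P, h1, h2, h3, h4⟩ := h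
  refine ⟨P, h1, h2, h3, ?_⟩
  have h5 : (X : ℚ[X]) ^ (L' + 1) ∣ digitPoly b x L - digitPoly b x L' := by
    have h6 : digitPoly b x L - digitPoly b x L' =
        ∑ i ∈ Icc 1 L \ Icc 1 L', C (digit b x i : ℚ) * X ^ i := by
      unfold digitPoly
      rw [← Finset.sum_sdiff (Finset.Icc_subset_Icc_right hL : Icc 1 L' ⊆ Icc 1 L)]
      ring
    rw [h6]
    refine Finset.dvd_sum fun i hi => ?_
    rw [mem_sdiff, mem_Icc, mem_Icc] at hi
    exact Dvd.dvd.mul_left (pow_dvd_pow _ (by omega)) _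
  have h7 : (X : ℚ[X]) ^ (L' + 1) ∣ P.eval (digitPoly b x L) - P.eval (digitPoly b x L') :=
    h5.trans (Polynomial.sub_dvd_eval_sub _ _ _)
  have h8 : (X : ℚ[X]) ^ (L' + 1) ∣ P.eval (digitPoly b x L) :=
    (pow_dvd_pow _ (by omega)).trans h4
  exact (dvd_sub_right h8).mp h7

/-- At the precision `X`, in every base `b`: if the first `L` digits of `x`, where `b ^ L ≥ X`,
satisfy an algebraic relation of degree at most `D` with coefficients of degree at most `k`, then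
`(k + 1) log b ≥ c log X - C`. -/
def DigitRich (D : ℕ) (c C X x : ℝ) : Prop :=
  ∀ b : ℕ, 2 ≤ b → ∀ L k : ℕ, X ≤ (b : ℝ) ^ L → AlgRelation b x D L k →
    c * Real.log X - C ≤ (k + 1) * Real.log b

lemma DigitRich.mono {D : ℕ} {c C c' C' X x : ℝ} (hc : c' ≤ c) (hC : C ≤ C') (hX : 1 ≤ X)
    (h : DigitRich D c C X x) : DigitRich D c' C' X x := by
  have hl : 0 ≤ Real.log X := Real.log_nonneg hX
  intro b hb L k h1 h2
  have := h b hb L k h1 h2
  have h3 := mul_le_mul_of_nonneg_right hc hl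
  linarith

/-- a simple number has a small polynomial -/
theorem small_poly (x : ℝ) (D : ℕ) (c : ℝ) (hc : 0 < c) (hc1 : c ≤ 1) :
    ∃ K : ℝ, 1 ≤ K ∧ ∀ X : ℝ, 1 < X → ∀ b : ℕ, 2 ≤ b → ∀ L k : ℕ, X ≤ (b : ℝ) ^ L →
      AlgRelation b x D L k → (k + 1) * Real.log b < c * Real.log X →
      ∃ Q : ℤ[X], Q ≠ 0 ∧ Q.natDegree ≤ D ∧
        (∀ i, |(Q.coeff i : ℝ)| ≤ K * (X ^ c) ^ (4 * (D + 2) ^ 2)) ∧
        |aeval x Q| ≤ K * (X ^ c) ^ (4 * (D + 2) ^ 2) / X := by
  obtain ⟨S, hS1, hS⟩ := shift_poly x D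
  obtain ⟨K1, hK1⟩ : ∃ K1 : ℝ, K1 = 2 + 1 / (c * Real.log 2) := ⟨_, rfl⟩
  have hl2 : 0 < Real.log 2 := Real.log_pos (by norm_num)
  have hK10 : 2 ≤ K1 := by
    rw [hK1]
    have : 0 ≤ 1 / (c * Real.log 2) := by positivity
    linarith
  obtain ⟨A, hA⟩ : ∃ A : ℝ, A = (2 * (D : ℝ) + 2) := ⟨_, rfl⟩
  have hA1 : 2 ≤ A := by rw [hA]; have : (0 : ℝ) ≤ D := Nat.cast_nonneg _; linarith
  obtain ⟨K2, hK2⟩ : ∃ K2 : ℝ, K2 = (A * K1 ^ (D + 1)) ^ (2 * (D + 1)) := ⟨_, rfl⟩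
  have hK21 : 1 ≤ K2 := by
    rw [hK2]
    refine one_le_pow₀ ?_
    have : 1 ≤ K1 ^ (D + 1) := one_le_pow₀ (by linarith)
    nlinarith
  have hK1D : 1 ≤ K1 ^ (D + 1) := one_le_pow₀ (by linarith)
  refine ⟨A * K2 * (2 * K1 ^ (D + 1)) * S, ?_, ?_⟩
  · have h1 : 1 ≤ A * K2 := by nlinarith
    have h2 : 1 ≤ A * K2 * (2 * K1 ^ (D + 1)) := by nlinarith
    nlinarith
  intro X hX b hb L k hXL hrel hlog
  have hX0 : 0 < X := by linarith
  have hlX : 0 < Real.log X := Real.log_pos hX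
  have hbR : (2 : ℝ) ≤ b := by exact_mod_cast hb
  have hb0 : (0 : ℝ) < b := by linarith
  have hlb : Real.log 2 ≤ Real.log b := Real.log_le_log (by norm_num) hbR
  have hlb0 : 0 < Real.log b := by linarith
  -- the least number of digits
  have hex : ∃ L : ℕ, X ≤ (b : ℝ) ^ L := ⟨L, hXL⟩
  classical
  obtain ⟨l, hl⟩ : ∃ l, l = Nat.find hex := ⟨_, rfl⟩
  have hl1 : X ≤ (b : ℝ) ^ l := by rw [hl]; exact Nat.find_spec hex
  have hlL : l ≤ L := by rw [hl]; exact Nat.find_min' hex hXL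
  have hl0 : 1 ≤ l := by
    by_contra hcon
    have : l = 0 := by omega
    rw [this, pow_zero] at hl1
    linarith
  have hl2' : (b : ℝ) ^ (l - 1) < X := by
    have := Nat.find_min hex (m := l - 1) (by omega)
    exact not_le.mp this
  have hrel' := hrel.mono hlL
  obtain ⟨Y, hY⟩ : ∃ Y : ℝ, Y = X ^ c := ⟨_, rfl⟩
  have hY1 : 1 ≤ Y := by rw [hY]; exact Real.one_le_rpow hX.le hc.le
  have hY0 : 0 < Y := by linarith
  have hlY : Real.log Y = c * Real.log X := by rw [hY, Real.log_rpow hX0]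
  have hbk : (b : ℝ) ^ (k + 1) ≤ Y := by
    rw [← Real.log_le_log_iff (by positivity) hY0, Real.log_pow, hlY]
    push_cast
    exact hlog.le
  have hbY : (b : ℝ) ≤ Y := by
    refine le_trans ?_ hbk
    exact le_self_pow₀ (by linarith) (by omega)
  have hkl : k ≤ l := by
    by_contra hcon
    push Not at hcon
    have h1 : (b : ℝ) ^ l ≤ (b : ℝ) ^ (k + 1) := pow_le_pow_right₀ (by linarith) (by omega)
    have h2 : X ≤ Y := hl1.trans (h1.trans hbk)
    have h3 : (b : ℝ) ^ l < (b : ℝ) ^ (k + 1) := pow_lt_pow_right₀ (by linarith) (by omega)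
    have h4 : Y ≤ X := by
      rw [hY]
      calc X ^ c ≤ X ^ (1 : ℝ) := Real.rpow_le_rpow_of_exponent_le hX.le hc1
        _ = X := Real.rpow_one X
    linarith
  have hlK : (l : ℝ) + 1 ≤ K1 * Y := by
    have h1 : ((l - 1 : ℕ) : ℝ) * Real.log b < Real.log X := by
      rw [← Real.log_pow]
      exact Real.log_lt_log (by positivity) hl2'
    have h2 : ((l - 1 : ℕ) : ℝ) * Real.log 2 < Real.log X := by
      refine lt_of_le_of_lt ?_ h1
      exact mul_le_mul_of_nonneg_left hlb (Nat.cast_nonneg _)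
    have h3 : c * Real.log X ≤ Y := by
      rw [← hlY]
      exact (Real.log_le_sub_one_of_pos hY0).trans (by linarith)
    have h4 : ((l - 1 : ℕ) : ℝ) ≤ 1 / (c * Real.log 2) * Y := by
      rw [div_mul_eq_mul_div, one_mul, le_div_iff₀ (by positivity)]
      calc ((l - 1 : ℕ) : ℝ) * (c * Real.log 2) = c * (((l - 1 : ℕ) : ℝ) * Real.log 2) := by ring
        _ ≤ c * Real.log X := mul_le_mul_of_nonneg_left h2.le hc.le
        _ ≤ Y := h3
    rw [Nat.cast_sub hl0, Nat.cast_one] at h4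
    rw [hK1, add_mul]
    linarith
  have hbl : (b : ℝ) * ((l : ℝ) + 1) ≤ K1 * Y ^ 2 := by
    calc (b : ℝ) * ((l : ℝ) + 1) ≤ Y * (K1 * Y) :=
          mul_le_mul hbY hlK (by positivity) hY0.le
      _ = K1 * Y ^ 2 := by ring
  have hblD : ((b : ℝ) * ((l : ℝ) + 1)) ^ (D + 1) ≤ K1 ^ (D + 1) * Y ^ (2 * (D + 1)) := by
    calc ((b : ℝ) * ((l : ℝ) + 1)) ^ (D + 1) ≤ (K1 * Y ^ 2) ^ (D + 1) :=
          pow_le_pow_left₀ (by positivity) hbl _
      _ = _ := by rw [mul_pow, ← pow_mul]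
  have hHl : ((2 * (D : ℝ) + 2) * ((b : ℝ) * ((l : ℝ) + 1)) ^ (D + 1)) ^ (2 * (D + 1)) ≤
      K2 * Y ^ (4 * (D + 1) ^ 2) := by
    calc ((2 * (D : ℝ) + 2) * ((b : ℝ) * ((l : ℝ) + 1)) ^ (D + 1)) ^ (2 * (D + 1))
        ≤ (A * (K1 ^ (D + 1) * Y ^ (2 * (D + 1)))) ^ (2 * (D + 1)) := by
          refine pow_le_pow_left₀ (by positivity) ?_ _
          rw [hA]
          exact mul_le_mul_of_nonneg_left hblD (by positivity)
      _ = (A * K1 ^ (D + 1)) ^ (2 * (D + 1)) * (Y ^ (2 * (D + 1))) ^ (2 * (D + 1)) := by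
          rw [← mul_assoc, mul_pow]
      _ = K2 * Y ^ (4 * (D + 1) ^ 2) := by
          rw [← hK2, ← pow_mul]
          congr 2
          ring
  obtain ⟨a, ha0, haH, hav⟩ := of_relation x D b l k hb hkl hrel'
  have hb2k : (b : ℝ) ^ (2 * k) ≤ Y ^ 2 := by
    calc (b : ℝ) ^ (2 * k) ≤ (b : ℝ) ^ ((k + 1) * 2) := pow_le_pow_right₀ (by linarith) (by omega)
      _ = ((b : ℝ) ^ (k + 1)) ^ 2 := by rw [pow_mul]
      _ ≤ Y ^ 2 := pow_le_pow_left₀ (by positivity) hbk 2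
  have hYpow : ∀ {m n : ℕ}, m ≤ n → Y ^ m ≤ Y ^ n := fun h => pow_le_pow_right₀ hY1 h
  have hHH : ∀ j, |(a j : ℝ)| ≤ 2 * K2 * Y ^ (4 * (D + 2) ^ 2) := by
    intro j
    refine (haH j).trans ?_
    calc 2 * ((2 * (D : ℝ) + 2) * ((b : ℝ) * ((l : ℝ) + 1)) ^ (D + 1)) ^ (2 * (D + 1)) *
          (b : ℝ) ^ (2 * k) ≤ 2 * (K2 * Y ^ (4 * (D + 1) ^ 2)) * Y ^ 2 := by
            refine mul_le_mul ?_ hb2k (by positivity) (by positivity)
            exact mul_le_mul_of_nonneg_left hHl (by norm_num)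
      _ = 2 * K2 * Y ^ (4 * (D + 1) ^ 2 + 2) := by rw [pow_add]; ring
      _ ≤ 2 * K2 * Y ^ (4 * (D + 2) ^ 2) := by
          refine mul_le_mul_of_nonneg_left (hYpow ?_) (by positivity)
          have e : (D + 2) ^ 2 = (D + 1) ^ 2 + 2 * (D + 1) + 1 := by ring
          omega
  obtain ⟨Q, hQ0, hQd, hQc, hQv⟩ := hS a ha0 (2 * K2 * Y ^ (4 * (D + 2) ^ 2)) (by positivity) hHH
  refine ⟨Q, hQ0, hQd, fun i => ?_, ?_⟩
  · refine (hQc i).trans ?_
    rw [← hY]
    have h1 : 2 * K2 ≤ A * K2 * (2 * K1 ^ (D + 1)) := by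
      have h2 : 2 * K2 ≤ A * K2 := mul_le_mul_of_nonneg_right hA1 (by linarith)
      have h3 : 0 < A * K2 := by positivity
      nlinarith
    calc 2 * K2 * Y ^ (4 * (D + 2) ^ 2) * S = 2 * K2 * S * Y ^ (4 * (D + 2) ^ 2) := by ring
      _ ≤ A * K2 * (2 * K1 ^ (D + 1)) * S * Y ^ (4 * (D + 2) ^ 2) := by
          refine mul_le_mul_of_nonneg_right ?_ (by positivity)
          exact mul_le_mul_of_nonneg_right h1 (by linarith)
  · rw [hQv, ← hY]
    refine hav.trans ?_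
    have hbL : (1 / (b : ℝ)) ^ l ≤ 1 / X := by
      rw [div_pow, one_pow]
      exact one_div_le_one_div_of_le hX0 hl1
    have e1 : 2 * ((D : ℝ) + 1) *
        ((2 * D + 2) * (b * ((l : ℝ) + 1)) ^ (D + 1)) ^ (2 * (D + 1)) *
        (2 * (b * ((l : ℝ) + 1)) ^ (D + 1)) ≤
        A * (K2 * Y ^ (4 * (D + 1) ^ 2)) * (2 * (K1 ^ (D + 1) * Y ^ (2 * (D + 1)))) := by
      refine mul_le_mul ?_ (mul_le_mul_of_nonneg_left hblD (by norm_num)) (by positivity)
        (by positivity)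
      rw [hA, show 2 * ((D : ℝ) + 1) = 2 * D + 2 by ring]
      exact mul_le_mul_of_nonneg_left hHl (by positivity)
    calc (b : ℝ) ^ (2 * k) * ((1 / b) ^ l * (2 * ((D : ℝ) + 1) *
          ((2 * D + 2) * (b * ((l : ℝ) + 1)) ^ (D + 1)) ^ (2 * (D + 1)) *
          (2 * (b * ((l : ℝ) + 1)) ^ (D + 1))))
        ≤ Y ^ 2 * (1 / X * (A * (K2 * Y ^ (4 * (D + 1) ^ 2)) *
          (2 * (K1 ^ (D + 1) * Y ^ (2 * (D + 1)))))) := by
          refine mul_le_mul hb2k (mul_le_mul hbL e1 (by positivity) (by positivity))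
            (by positivity) (by positivity)
      _ = A * K2 * (2 * K1 ^ (D + 1)) * Y ^ (2 + (4 * (D + 1) ^ 2 + 2 * (D + 1))) / X := by
          rw [pow_add, pow_add]
          ring
      _ ≤ A * K2 * (2 * K1 ^ (D + 1)) * S * Y ^ (4 * (D + 2) ^ 2) / X := by
          refine div_le_div_of_nonneg_right ?_ hX0.le
          refine mul_le_mul ?_ (hYpow ?_) (by positivity) (by positivity)
          · exact le_mul_of_one_le_right (by positivity) hS1
          · have e : (D + 2) ^ 2 = (D + 1) ^ 2 + 2 * (D + 1) + 1 := by ring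
            omega

/-- **Some number is not simple, at every precision.** -/
theorem digitRich_of_algebraic {J : ℕ} (x : Fin J → ℝ) (θ : ℝ) (hθ : HasMeasure θ)
    (h : IsAlgebraic (Algebra.adjoin ℤ (Set.range x)) θ) (D : ℕ) :
    ∃ c C : ℝ, 0 < c ∧ 0 ≤ C ∧ ∀ X : ℝ, 1 ≤ X → ∃ j, DigitRich D c C X (x j) := by
  classical
  obtain ⟨κ, c0, hκ, hc0, hmeas⟩ := real_meas x θ hθ h (D + 1)
  have hJ : 0 < J := by
    by_contra hcon
    have hJ0 : J = 0 := by omega
    have h1 := hmeas 1 le_rfl (fun _ => 0) (fun j => by have := j.2; omega) 0 le_rfl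
      (fun j => by have := j.2; omega)
    rw [mul_zero] at h1
    linarith
  have hD1 : (0 : ℝ) < (D : ℝ) + 1 := by positivity
  obtain ⟨m, hm⟩ : ∃ m : ℝ, m = ((4 * (D + 2) ^ 2 : ℕ) : ℝ) := ⟨_, rfl⟩
  have hm1 : 1 ≤ m := by
    rw [hm]
    have e : (D + 2) ^ 2 = (D + 1) ^ 2 + 2 * (D + 1) + 1 := by ring
    exact_mod_cast (by omega : 1 ≤ 4 * (D + 2) ^ 2)
  have hκD : 0 ≤ κ * (D + 1) := by positivity
  obtain ⟨c, hc⟩ : ∃ c : ℝ, c = 1 / (2 * m * (κ * (D + 1) + 1)) := ⟨_, rfl⟩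
  have hc0' : 0 < c := by rw [hc]; positivity
  have hcm : c * m * (κ * (D + 1) + 1) = 1 / 2 := by
    rw [hc]
    field_simp
  have hc1 : c ≤ 1 := by
    have h1 : c * 1 ≤ c * (m * (κ * (D + 1) + 1)) := by
      refine mul_le_mul_of_nonneg_left ?_ hc0'.le
      nlinarith
    rw [← mul_assoc] at h1
    linarith
  choose K hK1 hK using fun j => small_poly (x j) D c hc0' hc1
  obtain ⟨A, hA⟩ : ∃ A : ℝ, A = 1 + ∑ j, K j := ⟨_, rfl⟩
  have hAj : ∀ j, K j ≤ A := by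
    intro j
    rw [hA]
    have := Finset.single_le_sum (f := K) (fun j _ => by linarith [hK1 j]) (mem_univ j)
    linarith
  have hA1 : 1 ≤ A := by
    rw [hA]
    have : 0 ≤ ∑ j, K j := Finset.sum_nonneg fun j _ => by linarith [hK1 j]
    linarith
  obtain ⟨e, he⟩ : ∃ e : ℝ, e = 1 / (2 * (D + 1)) := ⟨_, rfl⟩
  have he0 : 0 < e := by rw [he]; positivity
  obtain ⟨M, hM⟩ : ∃ M : ℝ, M = 2 * A + (2 * A) ^ κ * (2 * A) / c0 := ⟨_, rfl⟩
  have hM1 : 1 ≤ M := by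
    rw [hM]
    have : 0 ≤ (2 * A) ^ κ * (2 * A) / c0 := by positivity
    linarith
  obtain ⟨X0, hX0⟩ : ∃ X0 : ℝ, X0 = M ^ (1 / e) := ⟨_, rfl⟩
  have hX01 : 1 ≤ X0 := by
    rw [hX0]
    exact Real.one_le_rpow hM1 (by positivity)
  have hlX0 : 0 ≤ Real.log X0 := Real.log_nonneg hX01
  refine ⟨c, c * Real.log X0, hc0', by positivity, fun X hX => ?_⟩
  have hX' : 0 < X := by linarith
  rcases le_or_gt X X0 with hXX | hXX
  · refine ⟨⟨0, hJ⟩, fun b hb L k _ _ => ?_⟩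
    have h1 := Real.log_le_log hX' hXX
    have h2 := mul_le_mul_of_nonneg_left h1 hc0'.le
    have h3 : 0 ≤ Real.log (b : ℝ) := Real.log_natCast_nonneg b
    have h4 : 0 ≤ ((k : ℝ) + 1) * Real.log b := by positivity
    linarith
  · by_contra hcon
    push Not at hcon
    have hX1 : 1 < X := by linarith
    have hMX : M < X ^ e := by
      have h1 : X0 ^ e < X ^ e := Real.rpow_lt_rpow (by linarith) hXX he0
      rw [hX0, ← Real.rpow_mul (by linarith), one_div_mul_cancel he0.ne', Real.rpow_one] at h1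
      exact h1
    have hXe : X ^ (-e) * X ^ e = 1 := by
      rw [← Real.rpow_add hX']
      norm_num
    have hXe0 : 0 < X ^ (-e) := Real.rpow_pos_of_pos hX' _
    have hMXe : X ^ (-e) * M < 1 := by
      calc X ^ (-e) * M < X ^ (-e) * X ^ e := mul_lt_mul_of_pos_left hMX hXe0
        _ = 1 := hXe
    obtain ⟨ex, hex⟩ : ∃ ex : ℝ, ex = -((1 - c * m) / (D + 1)) := ⟨_, rfl⟩
    have hcm' : c * m ≤ 1 / 2 := by
      have : c * m * 1 ≤ c * m * (κ * (D + 1) + 1) := by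
        refine mul_le_mul_of_nonneg_left ?_ (by positivity)
        linarith
      linarith
    have hexe : ex ≤ -e := by
      rw [hex, he, neg_le_neg_iff, div_le_div_iff₀ (by positivity) hD1]
      nlinarith
    have hexκ : c * m * κ + ex ≤ -e := by
      have h1 : (c * m * κ + ex) * (D + 1) = c * m * (κ * (D + 1) + 1) - 1 := by
        rw [hex]
        field_simp
        ring
      rw [hcm] at h1
      have h2 : (-e) * (D + 1) = 1 / 2 - 1 := by
        rw [he]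
        field_simp
        ring
      rw [← h2] at h1
      exact (mul_right_cancel₀ hD1.ne' h1).le
    obtain ⟨δ, hδ⟩ : ∃ δ : ℝ, δ = 2 * A * X ^ ex := ⟨_, rfl⟩
    have hδ0 : 0 < δ := by rw [hδ]; positivity
    have hδ1 : δ ≤ 1 := by
      calc δ ≤ 2 * A * X ^ (-e) := by
            rw [hδ]
            exact mul_le_mul_of_nonneg_left (Real.rpow_le_rpow_of_exponent_le hX hexe)
              (by positivity)
        _ ≤ M * X ^ (-e) := by
            refine mul_le_mul_of_nonneg_right ?_ hXe0.le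
            rw [hM]
            have : 0 ≤ (2 * A) ^ κ * (2 * A) / c0 := by positivity
            linarith
        _ ≤ 1 := by rw [mul_comm]; exact hMXe.le
    have hXcm : (X ^ c) ^ (4 * (D + 2) ^ 2) = X ^ (c * m) := by
      rw [hm, ← Real.rpow_natCast, ← Real.rpow_mul hX'.le]
    have hXcm1 : 1 ≤ X ^ (c * m) := Real.one_le_rpow hX (by positivity)
    obtain ⟨H, hH⟩ : ∃ H : ℕ, H = ⌈A * X ^ (c * m)⌉₊ := ⟨_, rfl⟩
    have hHge : A * X ^ (c * m) ≤ (H : ℝ) := by rw [hH]; exact Nat.le_ceil _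
    have hAX1 : 1 ≤ A * X ^ (c * m) := by nlinarith
    have hHle : (H : ℝ) ≤ 2 * A * X ^ (c * m) := by
      have := (Nat.ceil_lt_add_one (by linarith : (0 : ℝ) ≤ A * X ^ (c * m))).le
      rw [hH]
      linarith
    have hH1 : 1 ≤ H := by
      have : (1 : ℝ) ≤ H := by linarith
      exact_mod_cast this
    have hsimple : ∀ j, ∃ ξ : ℂ, AlgHt (D + 1) H ξ ∧ ‖(x j : ℂ) - ξ‖ ≤ δ := by
      intro j
      have h1 := hcon j
      unfold DigitRich at h1
      push Not at h1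
      obtain ⟨b, hb, L, k, h2, h3, h4⟩ := h1
      have h5 : ((k : ℝ) + 1) * Real.log b < c * Real.log X := by
        have : 0 ≤ c * Real.log X0 := by positivity
        linarith
      obtain ⟨Q, hQ0, hQd, hQc, hQv⟩ := hK j X hX1 b hb L k h2 h3 h5
      rw [hXcm] at hQc hQv
      have hKA : K j * X ^ (c * m) ≤ A * X ^ (c * m) :=
        mul_le_mul_of_nonneg_right (hAj j) (by positivity)
      have hsmall : |aeval (x j) Q| < δ ^ (D + 1) := by
        have h6 : |aeval (x j) Q| ≤ A * X ^ (c * m) / X :=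
          hQv.trans (div_le_div_of_nonneg_right hKA hX'.le)
        have h7 : δ ^ (D + 1) = (2 * A) ^ (D + 1) * (X ^ (c * m) / X) := by
          rw [hδ, mul_pow, ← Real.rpow_natCast (X ^ ex), ← Real.rpow_mul hX'.le]
          congr 1
          have e1 : ex * ((D + 1 : ℕ) : ℝ) = c * m - 1 := by
            rw [hex]
            push_cast
            field_simp
            ring
          rw [e1, Real.rpow_sub hX', Real.rpow_one]
        have h8 : 2 * A ≤ (2 * A) ^ (D + 1) := le_self_pow₀ (by linarith) (by omega)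
        have h9 : 0 < X ^ (c * m) / X := by positivity
        rw [h7]
        calc |aeval (x j) Q| ≤ A * X ^ (c * m) / X := h6
          _ = A * (X ^ (c * m) / X) := by ring
          _ < 2 * A * (X ^ (c * m) / X) := by nlinarith
          _ ≤ _ := mul_le_mul_of_nonneg_right h8 h9.le
      obtain ⟨ξ, h6, h7⟩ := near_root Q hQ0 (D + 1) (by omega) (x j : ℂ) δ hδ0 hδ1 (by
        rw [← Pool.Agent.TH456.TM.abs_aeval]; exact hsmall)
      refine ⟨ξ, ⟨Q, hQ0, by omega, fun i => ?_, h6⟩, h7⟩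
      have h8 : |(Q.coeff i : ℝ)| ≤ H := (hQc i).trans (hKA.trans hHge)
      exact_mod_cast h8
    choose ξ hξ1 hξ2 using hsimple
    have hfin := hmeas H hH1 ξ hξ1 δ hδ0.le hξ2
    have h1 : (H : ℝ) ^ κ * δ ≤ (2 * A * X ^ (c * m)) ^ κ * δ :=
      mul_le_mul_of_nonneg_right (Real.rpow_le_rpow (Nat.cast_nonneg _) hHle hκ) hδ0.le
    have h2 : (2 * A * X ^ (c * m)) ^ κ * δ = (2 * A) ^ κ * (2 * A) * X ^ (c * m * κ + ex) := by
      rw [Real.mul_rpow (by linarith) (by positivity), hδ, ← Real.rpow_mul hX'.le,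
        Real.rpow_add hX']
      ring
    have h3 : X ^ (c * m * κ + ex) ≤ X ^ (-e) := Real.rpow_le_rpow_of_exponent_le hX hexκ
    have h4 : c0 ≤ (2 * A) ^ κ * (2 * A) * X ^ (-e) := by
      refine hfin.trans (h1.trans (h2.le.trans ?_))
      exact mul_le_mul_of_nonneg_left h3 (by positivity)
    have h5 : X ^ (-e) * ((2 * A) ^ κ * (2 * A) / c0) < 1 := by
      refine lt_of_le_of_lt (mul_le_mul_of_nonneg_left ?_ hXe0.le) hMXe
      rw [hM]
      linarith
    have h6 : X ^ (-e) * ((2 * A) ^ κ * (2 * A) / c0) * c0 < 1 * c0 :=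
      mul_lt_mul_of_pos_right h5 hc0
    have h7 : X ^ (-e) * ((2 * A) ^ κ * (2 * A) / c0) * c0 = (2 * A) ^ κ * (2 * A) * X ^ (-e) := by
      field_simp
    linarith

/-- at most `r` elements of `S` are simple at the precision `X` -/
theorem few_not_digitRich (S : Finset ℝ) (r : ℕ)
    (h : ∀ T ⊆ S, T.card = r + 1 →
      ∃ θ : ℝ, HasMeasure θ ∧ IsAlgebraic (Algebra.adjoin ℤ (T : Set ℝ)) θ) (D : ℕ) :
    ∃ c C : ℝ, 0 < c ∧ 0 ≤ C ∧ ∀ X : ℝ, 1 ≤ X →
      {x ∈ (S : Set ℝ) | ¬ DigitRich D c C X x}.ncard ≤ r := by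
  refine few_of (DigitRich D) (fun c C c' C' X x h1 h2 h3 h4 => h4.mono h1 h2 h3) S r
    fun T hT hTr => ?_
  obtain ⟨θ, hθ, hal⟩ := h T hT hTr
  obtain ⟨x, hx, hr⟩ := finset_enum T
  rw [← hr] at hal
  obtain ⟨c, C, hc, hC, hR⟩ := digitRich_of_algebraic x θ hθ hal D
  refine ⟨c, C, hc, hC, fun X hX => ?_⟩
  obtain ⟨j, hj⟩ := hR X hX
  exact ⟨x j, hx j, hj⟩

end Pool.Agent.Y39.DJ
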